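import Pool.Agent.QSB.StmtsS

set_option autoImplicit false

/-!
# QSB, row GWB: weight vectors of a self adjoint Lie algebra
-/

namespace Pool.Agent.QSB.H58

open Matrix Finset Pool.Agent.QSX Pool.Agent.QSB

theorem entry {m : ℕ} {c : Fin m → ℝ} {r : ℝ} {x : Matrix (Fin m) (Fin m) ℝ}
    (h : diagonal c * x - x * diagonal c = r • x) (i j : Fin m) :
    (c i - c j) * x i j = r * x i j := by
  have h1 := congrFun (congrFun h i) j
  rw [Matrix.sub_apply, Matrix.diagonal_mul, Matrix.mul_diagonal, Matrix.smul_apply,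
    smul_eq_mul] at h1
  linear_combination h1

theorem wtr {m : ℕ} {c : Fin m → ℝ} {r : ℝ} {x : Matrix (Fin m) (Fin m) ℝ}
    (h : diagonal c * x - x * diagonal c = r • x) :
    diagonal c * xᵀ - xᵀ * diagonal c = (-r) • xᵀ := by
  have h1 := congrArg Matrix.transpose h
  rw [Matrix.transpose_sub, Matrix.transpose_mul, Matrix.transpose_mul, Matrix.transpose_smul,
    Matrix.diagonal_transpose] at h1
  rw [neg_smul, ← h1, neg_sub]

theorem gw_tr {X : Dat} (S : Sym X) {μ : X.b →ₗ[ℝ] ℝ} {x : Matrix (Fin X.m) (Fin X.m) ℝ}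
    (h : GW S μ x) : GW S (-μ) xᵀ := by
  refine ⟨S.tr x h.1, fun h0 => h.2.1 ?_, fun c => ?_⟩
  · rw [← Matrix.transpose_transpose x, h0, Matrix.transpose_zero]
  · rw [LinearMap.neg_apply]
    exact wtr (h.2.2 c)

theorem gwb : GwbStmt := by
  intro X S
  refine ⟨?_, ?_, fun μ x h => gw_tr S h, ?_, ?_⟩
  · intro ρ x hx
    obtain ⟨⟨hxn, hw⟩, hx0⟩ := hx
    obtain ⟨hxg, hsu⟩ := (S.n_mem x).1 hxn
    refine ⟨⟨hxg, hx0, hw⟩, ?_⟩
    have hex : ∃ i j, x i j ≠ 0 := by
      by_contra h
      push Not at h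
      exact hx0 (by ext i j; exact h i j)
    obtain ⟨i, j, hij⟩ := hex
    have h1 := entry (hw S.a₀) i j
    have h2 : (S.a₀ : Fin X.m → ℝ) i - (S.a₀ : Fin X.m → ℝ) j = ρ S.a₀ := mul_right_cancel₀ hij h1
    have h3 := hsu i j hij
    linarith
  · intro μ x h hpos
    refine ⟨⟨(S.n_mem x).2 ⟨h.1, fun i j hij => ?_⟩, h.2.2⟩, h.2.1⟩
    have h1 := entry (h.2.2 S.a₀) i j
    have h2 : (S.a₀ : Fin X.m → ℝ) i - (S.a₀ : Fin X.m → ℝ) j = μ S.a₀ := mul_right_cancel₀ hij h1
    linarith
  · intro μ ν x z hx hz hne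
    refine ⟨S.lie x hx.1 z hz.1, hne, fun c => ?_⟩
    have h1 := hx.2.2 c
    have h2 := hz.2.2 c
    set D := diagonal (c : Fin X.m → ℝ) with hD
    calc D * (x * z - z * x) - (x * z - z * x) * D =
        (D * x - x * D) * z + x * (D * z - z * D) - (D * z - z * D) * x - z * (D * x - x * D) := by
          noncomm_ring
      _ = (μ + ν) c • (x * z - z * x) := by
          rw [h1, h2, LinearMap.add_apply, Matrix.smul_mul, Matrix.mul_smul, Matrix.smul_mul,
            Matrix.mul_smul, add_smul, smul_sub, smul_sub]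
          abel
  · intro μ x h h0
    by_contra hμ
    obtain ⟨c, hc⟩ : ∃ c, μ c ≠ 0 := by
      by_contra hh
      push Not at hh
      exact hμ (LinearMap.ext hh)
    have hd : ∀ i, x i i = 0 := by
      intro i
      have h1 := entry (h.2.2 c) i i
      rw [sub_self, zero_mul] at h1
      rcases mul_eq_zero.1 h1.symm with h2 | h2
      · exact absurd h2 hc
      · exact h2
    have h5 := h.2.2 S.a₀
    have h6 := wtr h5
    rw [h0, zero_smul, sub_eq_zero] at h5
    rw [h0, neg_zero, zero_smul, sub_eq_zero] at h6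
    obtain ⟨e, he⟩ := S.reg (x + xᵀ) (S.g.add_mem h.1 (S.tr x h.1))
      (by rw [Matrix.transpose_add, Matrix.transpose_transpose, add_comm])
      (by rw [Matrix.mul_add, Matrix.add_mul, h5, h6])
    have h7 : x + xᵀ = 0 := by
      ext i j
      by_cases hij : i = j
      · subst hij
        rw [Matrix.add_apply, Matrix.transpose_apply, hd i, add_zero]
        rfl
      · rw [he, Matrix.diagonal_apply_ne _ hij]
        rfl
    have h8 : xᵀ = -x := (neg_eq_of_add_eq_zero_right h7).symm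
    have h9 := wtr (h.2.2 c)
    rw [h8] at h9
    have h10 : (2 * μ c) • x = 0 := by
      have h11 := h.2.2 c
      have h12 : diagonal (c : Fin X.m → ℝ) * (-x) - (-x) * diagonal (c : Fin X.m → ℝ) =
          -(μ c • x) := by
        rw [← h11, Matrix.mul_neg, Matrix.neg_mul]
        abel
      rw [h12, neg_smul, smul_neg, neg_neg] at h9
      rw [two_mul, add_smul]
      nth_rw 1 [← h9]
      abel
    rcases smul_eq_zero.1 h10 with h11 | h11
    · exact hc (by linarith)
    · exact h.2.1 h11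

end Pool.Agent.QSB.H58
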